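import Mathlib
import Pool.Agent.Helper88.Leg.Final

/-!
# Infinitely many Legendrian knots have a stabilisation of smaller mosaic number

Oriented Legendrian links are encoded by words of elementary pieces of their fronts (left cusps,
right cusps, crossings), modulo planar isotopy and the Legendrian Reidemeister moves.  The
front of a mosaic is read off column by column, and `HasMosaicNumber Λ n` says that `n` is the
least size of a mosaic depicting `Λ`.  The theorem says that there are infinitely many Legendrian
knots `Λ` having a stabilisation `Λ'` whose mosaic number is strictly smaller than the one of `Λ`
(in particular both mosaic numbers exist).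

Idea of the proof: `tb + 4 rot ≤ n ^ 2` for every front on an `n`-mosaic.  For `n = 2 m`, `m ≥ 7`,
there is an `n`-mosaic (a diamond shaped comb filled with cusps) which depicts the unknot with
`a = (m - 1) (2 m - 3)` downward and some number of upward zigzags.  Removing the upward zigzags one
after the other one arrives at an unknot with `tb + 4 rot = 3 a - 1 > n ^ 2`, which is not on any
mosaic of size at most `n`.  So at some step the mosaic number of a knot is bigger than that of its
stabilisation.
-/

namespace Pool.Agent.Results.MP_7f4ea8_gt.StabilizationDrop

open Pool.Agent.Helper88.Leg

theorem result : {Λ : LegLink | Λ.IsKnot ∧ ∃ Λ' : LegLink, IsStabilization Λ Λ' ∧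
    ∃ k l : ℕ, HasMosaicNumber Λ' k ∧ HasMosaicNumber Λ l ∧ k < l}.Infinite :=
  drop_infinite

end Pool.Agent.Results.MP_7f4ea8_gt.StabilizationDrop
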